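import Pool.Agent.Y397.MS.Fin
import Pool.Agent.Y515.MS.Flat

/-!
# Which analytic loops are discontinuity sets of local minimizers near themselves

For a real-analytic simple closed curve `γ` in the plane, real-analytic functions `uL`, `uR` on it
satisfy the Euler–Lagrange condition if the jump of the squared tangential derivative is the
curvature, `(uR_s)² - (uL_s)² = κ` (`L` is the left side of the oriented curve, `R` the right side,
`κ > 0` if the curve turns to the left).

(1) Every such curve, with `uL ≠ uR` everywhere, is the discontinuity set of a local minimizer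
`u ∈ M(Ω)` with these traces, in a bounded connected open set `Ω` contained in any given
neighbourhood of the curve.  So `Ω ∩ closure S_u` is a closed loop, not the union of the images of
an admissible family of arcs.

(2) The curves which carry such functions are exactly those whose curvature vanishes at two
different points `p`, `p'` such that `κ(t) sin((t-p)/2) sin((t-p')/2)` takes both signs; for example
(3) all curves whose curvature changes sign at least four times, and (4) all centrally symmetric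
curves with a point of zero curvature.

(5) Convex examples, with a constant on one side: for every real-analytic function `w` with
`w(t + π) = -w(t)` and `∫_0^{2π} w² = 2π` the centrally symmetric closed curve of length `2π` with
curvature `w²`; (6) among them there is for every `m` a curve with exactly `2(2m+1)` points of
zero curvature, so that there are infinitely many pairwise non-similar convex examples.

The starting result `ClosedLoop` of this problem is one convex example.  The proof: extension of the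
curve and the traces to holomorphic functions on a strip; a calibration in potential form which is
built from a solution of the (always solvable) second order condition along the closed curve.
-/

set_option autoImplicit false

open MeasureTheory Set Filter Topology Metric
open Pool.Agent.TH605.MS
open scoped ENNReal ComplexConjugate Real

namespace Pool.Agent.Results.MP_099f24_an.AnalyticLoops

/-- a real-analytic simple closed regular curve, parametrised with period `2π` -/
structure Loop (γ : ℝ → ℂ) : Prop where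
  an : AnalyticOnNhd ℝ γ univ
  per : Function.Periodic γ (2 * π)
  inj : InjOn γ (Ico 0 (2 * π))
  reg : ∀ t, deriv γ t ≠ 0

/-- a real-analytic function on the curve -/
structure Trace (u : ℝ → ℝ) : Prop where
  an : AnalyticOnNhd ℝ u univ
  per : Function.Periodic u (2 * π)

/-- `κ |γ'|³`, where `κ` is the signed curvature of `γ`, positive if `γ` turns to the left -/
noncomputable def curv (γ : ℝ → ℂ) (t : ℝ) : ℝ := (conj (deriv γ t) * deriv (deriv γ) t).im

/-- the Euler–Lagrange condition `(uR_s)² - (uL_s)² = κ`, where `∂_s = |γ'|⁻¹ d/dt` -/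
def EulerLagrange (γ : ℝ → ℂ) (uL uR : ℝ → ℝ) : Prop :=
  ∀ t, (deriv uR t ^ 2 - deriv uL t ^ 2) * ‖deriv γ t‖ = curv γ t

/-- In the neighbourhood `V` of the curve there are a bounded connected open set `Ω` which contains
the curve, and a local minimizer `u ∈ M(Ω)` whose discontinuity set is the curve, which jumps from
`uR` on the right side to `uL` on the left side of the curve (the unit normal `i γ' / |γ'|` points to
the left); and `Ω ∩ closure S_u` is not the union of the images of an admissible family of arcs. -/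
def IsLoopOfMinimizer (γ : ℝ → ℂ) (uL uR : ℝ → ℝ) (V : Set ℂ) : Prop :=
  ∃ (Ω : Set ℂ) (u : ℂ → ℝ), IsOpen Ω ∧ Bornology.IsBounded Ω ∧ IsConnected Ω ∧ range γ ⊆ Ω ∧
    Ω ⊆ V ∧ IsLocalMinimizer Ω u ∧ discSet Ω u = range γ ∧
    (∀ t, IsJump u (γ t) (uL t) (uR t) ((‖deriv γ t‖⁻¹ : ℝ) • (Complex.I * deriv γ t))) ∧
    ¬ ∃ (ι : Type) (c : ι → Arc Ω), Countable ι ∧ Admissible c ∧
      (⋃ i, (c i).image) = Ω ∩ closure (discSet Ω u)

/-- the geometric condition: the curvature vanishes at two different points `p`, `p'` of the curve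
such that `κ(t) sin((t-p)/2) sin((t-p')/2)` takes both signs -/
def Geometric (γ : ℝ → ℂ) : Prop := ∃ p p' : ℝ, curv γ p = 0 ∧ curv γ p' = 0 ∧
  Real.sin ((p - p') / 2) ≠ 0 ∧
  (∃ x, 0 < curv γ x * (Real.sin ((x - p) / 2) * Real.sin ((x - p') / 2))) ∧
  ∃ x, curv γ x * (Real.sin ((x - p) / 2) * Real.sin ((x - p') / 2)) < 0

theorem Loop.lib {γ : ℝ → ℂ} (h : Loop γ) : Pool.Agent.Y397.MS.Loop γ :=
  ⟨h.an, h.per, h.inj, h.reg⟩

theorem Trace.lib {u : ℝ → ℝ} (h : Trace u) : Pool.Agent.Y397.MS.Tr u := ⟨h.an, h.per⟩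

theorem part1 {γ : ℝ → ℂ} {uL uR : ℝ → ℝ} (hγ : Loop γ) (hL : Trace uL) (hR : Trace uR)
    (hne : ∀ t, uL t ≠ uR t) (h : EulerLagrange γ uL uR) {V : Set ℂ} (hV : IsOpen V)
    (hγV : range γ ⊆ V) : IsLoopOfMinimizer γ uL uR V :=
  Pool.Agent.Y397.MS.critical γ uL uR hγ.lib hL.lib hR.lib hne h V hV hγV

theorem part2 {γ : ℝ → ℂ} (hγ : Loop γ) (h : Geometric γ) :
    ∃ uL uR : ℝ → ℝ, Trace uL ∧ Trace uR ∧ (∀ t, uL t ≠ uR t) ∧ EulerLagrange γ uL uR := by
  obtain ⟨uL, uR, h1, h2, h3, h4⟩ := Pool.Agent.Y397.MS.geo_traces γ hγ.lib h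
  exact ⟨uL, uR, ⟨h1.an, h1.per⟩, ⟨h2.an, h2.per⟩, fun t => (h3 t).ne', h4⟩

/-- **Analytic loops which are discontinuity sets of local minimizers.** -/
theorem result :
    -- (1) every critical loop, with every pair of traces, in every neighbourhood
    (∀ (γ : ℝ → ℂ) (uL uR : ℝ → ℝ), Loop γ → Trace uL → Trace uR → (∀ t, uL t ≠ uR t) →
      EulerLagrange γ uL uR → ∀ V : Set ℂ, IsOpen V → range γ ⊆ V →
        IsLoopOfMinimizer γ uL uR V) ∧
    -- (2) the loops which carry such traces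
    (∀ γ : ℝ → ℂ, Loop γ → ((∃ uL uR : ℝ → ℝ, Trace uL ∧ Trace uR ∧ (∀ t, uL t ≠ uR t) ∧
      EulerLagrange γ uL uR) ↔ Geometric γ)) ∧
    -- (3) at least four sign changes of the curvature
    (∀ γ : ℝ → ℂ, Loop γ → ∀ t₁ t₂ t₃ t₄ : ℝ, t₁ < t₂ → t₂ < t₃ → t₃ < t₄ → t₄ < t₁ + 2 * π →
      0 < curv γ t₁ → curv γ t₂ < 0 → 0 < curv γ t₃ → curv γ t₄ < 0 →
        ∃ uL uR : ℝ → ℝ, ∀ V : Set ℂ, IsOpen V → range γ ⊆ V → IsLoopOfMinimizer γ uL uR V) ∧
    -- (4) centrally symmetric loops with a point of zero curvature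
    (∀ γ : ℝ → ℂ, Loop γ → ∀ c : ℂ, (∀ t, γ (t + π) - c = -(γ t - c)) →
      (∃ p, curv γ p = 0) →
        ∃ uL uR : ℝ → ℝ, ∀ V : Set ℂ, IsOpen V → range γ ⊆ V → IsLoopOfMinimizer γ uL uR V) ∧
    -- (5) convex loops with curvature `w²`, with a constant on the left side
    (∀ w : ℝ → ℝ, AnalyticOnNhd ℝ w univ → (∀ t, w (t + π) = -w t) →
      (∫ t in (0 : ℝ)..(2 * π), w t ^ 2) = 2 * π →
      ∃ (γ : ℝ → ℂ) (U : ℝ → ℝ), Loop γ ∧ Trace U ∧ (∀ t, ‖deriv γ t‖ = 1) ∧
        (∀ t, γ (t + π) = -γ t) ∧ (∀ t, curv γ t = w t ^ 2) ∧ (∀ t, deriv U t = w t) ∧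
        ∀ c : ℝ, (∀ t, c ≠ U t) → ∀ V : Set ℂ, IsOpen V → range γ ⊆ V →
          IsLoopOfMinimizer γ (fun _ => c) U V) ∧
    -- (6) for every `m` one with exactly `2 (2 m + 1)` points of zero curvature
    (∀ m : ℕ, ∃ (γ : ℝ → ℂ) (uL uR : ℝ → ℝ), Loop γ ∧ (∀ t, ‖deriv γ t‖ = 1) ∧
      (∀ t, 0 ≤ curv γ t) ∧
      {t | t ∈ Ico (0 : ℝ) (2 * π) ∧ curv γ t = 0}.ncard = 2 * (2 * m + 1) ∧
      ∀ V : Set ℂ, IsOpen V → range γ ⊆ V → IsLoopOfMinimizer γ uL uR V) := by
  have key : ∀ γ : ℝ → ℂ, Loop γ → Geometric γ →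
      ∃ uL uR : ℝ → ℝ, ∀ V : Set ℂ, IsOpen V → range γ ⊆ V → IsLoopOfMinimizer γ uL uR V := by
    intro γ hγ h
    obtain ⟨uL, uR, h1, h2, h3, h4⟩ := part2 hγ h
    exact ⟨uL, uR, fun V hV hγV => part1 hγ h1 h2 h3 h4 hV hγV⟩
  have conv : ∀ w : ℝ → ℝ, AnalyticOnNhd ℝ w univ → (∀ t, w (t + π) = -w t) →
      (∫ t in (0 : ℝ)..(2 * π), w t ^ 2) = 2 * π →
      ∃ (γ : ℝ → ℂ) (U : ℝ → ℝ), Loop γ ∧ Trace U ∧ (∀ t, ‖deriv γ t‖ = 1) ∧
        (∀ t, γ (t + π) = -γ t) ∧ (∀ t, curv γ t = w t ^ 2) ∧ (∀ t, deriv U t = w t) ∧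
        ∀ c : ℝ, (∀ t, c ≠ U t) → ∀ V : Set ℂ, IsOpen V → range γ ⊆ V →
          IsLoopOfMinimizer γ (fun _ => c) U V := by
    intro w hw ha hi
    obtain ⟨γ, U, h1, h2, h3, h4, h5, h6, h7⟩ := Pool.Agent.Y397.MS.convex hw ha hi
    exact ⟨γ, U, ⟨h1.an, h1.per, h1.inj, h1.reg⟩, ⟨h2.an, h2.per⟩, h3, h4, h5, h6, h7⟩
  refine ⟨fun γ uL uR hγ hL hR hne h V hV hγV => part1 hγ hL hR hne h hV hγV, ?_, ?_, ?_, conv, ?_⟩
  · intro γ hγ
    constructor
    · rintro ⟨uL, uR, h1, h2, -, h4⟩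
      exact Pool.Agent.Y51.MS.nec γ uL uR hγ.lib h1.lib h2.lib h4
    · exact part2 hγ
  · intro γ hγ t₁ t₂ t₃ t₄ a1 a2 a3 a4 b1 b2 b3 b4
    exact key γ hγ (Pool.Agent.Y51.MS.four γ hγ.lib t₁ t₂ t₃ t₄ a1 a2 a3 a4 b1 b2 b3 b4)
  · rintro γ hγ c hc ⟨p, hp⟩
    exact key γ hγ (Pool.Agent.Y51.MS.sym γ hγ.lib c hc p hp)
  · intro m
    obtain ⟨w, hw, ha, hi, hcard⟩ := Pool.Agent.Y515.MS.flat m
    obtain ⟨γ, U, h1, h2, h3, h4, h5, h6, h7⟩ := conv w hw ha hi
    -- a constant above the trace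
    have hUc : Continuous U :=
      continuous_iff_continuousAt.2 fun t => (h2.an t (mem_univ t)).continuousAt
    obtain ⟨t₀, -, hmax⟩ := (isCompact_Icc (a := (0 : ℝ)) (b := 2 * π)).exists_isMaxOn
      ⟨0, ⟨le_rfl, by positivity⟩⟩ hUc.continuousOn
    have hc : ∀ t, U t₀ + 1 ≠ U t := by
      intro t
      obtain ⟨s, hs, he⟩ := h2.per.exists_mem_Ico₀ (by positivity : (0:ℝ) < 2 * π) t
      have h8 : U s ≤ U t₀ := hmax (Ico_subset_Icc_self hs)
      rw [he]
      linarith
    refine ⟨γ, fun _ => U t₀ + 1, U, h1, h3, fun t => ?_, ?_, h7 (U t₀ + 1) hc⟩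
    · rw [h5]; exact sq_nonneg _
    · rw [← hcard]
      congr 1
      ext t
      simp only [mem_ofPred_eq, h5]
      rw [sq_eq_zero_iff]

end Pool.Agent.Results.MP_099f24_an.AnalyticLoops
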